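import Mathlib
import Pool.Agent.Lib.MP_959bb6_lc.Defs

/-!
Minimum-cost k-connected spanning networks in finite metric spaces.
-/

set_option autoImplicit false

namespace Pool.Agent.Lib.MP_959bb6_lc_M

open Pool.Agent.Shared.PolyTime Pool.Agent.Lib.MP_959bb6_lc

/-- An instance: `k` and a (pseudo)metric on `n` points whose squared distances `sq u v` are
rational. -/
structure MInst : Type where
  n : ℕ
  k : ℕ
  sq : Fin n → Fin n → ℚ
  nonneg : ∀ u v, 0 ≤ sq u v
  self : ∀ u, sq u u = 0
  symm : ∀ u v, sq u v = sq v u
  tri : ∀ u v w, √(sq u w : ℝ) ≤ √(sq u v : ℝ) + √(sq v w : ℝ)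

/-- The input bit string: `k` in binary and the matrix of squared distances. -/
def MInst.code (I : MInst) : List Bool :=
  encPair (encBin I.k)
    (encList (encList encRat) (List.ofFn fun i => List.ofFn fun j => I.sq i j))

open Classical in
/-- The cost of a network: the total length of its edges. -/
noncomputable def MInst.cost (I : MInst) (G : SimpleGraph (Fin I.n)) : ℝ :=
  ∑ i, ∑ j, if i < j ∧ G.Adj i j then √(I.sq i j : ℝ) else 0

end Pool.Agent.Lib.MP_959bb6_lc_M
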