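import Mathlib
import Pool.Agent.Lib.MP_959bb6_lc.EdgeAug
import Pool.Agent.Lib.MP_959bb6_lc.Menger
import Pool.Agent.Lib.MP_959bb6_lc_M.Defs

/-!
Rounding a metric instance to an integer metric.
-/

set_option autoImplicit false

namespace Pool.Agent.Lib.MP_959bb6_lc_M

open Pool.Agent.Shared.PolyTime Pool.Agent.Lib.MP_959bb6_lc Enc Finset Rd

def cmpM (L : ℕ) (P : Pts) (u v j a b : ℕ) : Bool :=
  Bin.lt (Bin.mul (Bin.mul ⟨j * j⟩ (co P a b).2.1) (co P u v).2.2)
    (Bin.mul (Bin.mul ⟨L * L⟩ (co P u v).2.1) (co P a b).2.2)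

def cB (L : ℕ) (P : Pts) (u v : ℕ) : ℕ :=
  (cntB L fun j => !(anyB P.length fun a => anyB P.length fun b => !(cmpM L P u v j a b))) +
    (bif u == v then 0 else 1)

def sA (k : ℕ) : ℕ := cntB k fun j => Nat.ble (64 * (j + 1) ^ 3) k

section
variable {α : Type} [Enc α]

@[fun_prop] theorem pf_cmpM {P : α → Pts} {L u v j x y : α → ℕ} (h0 : PF L) (h1 : PF P)
    (h2 : PF u) (h3 : PF v) (h4 : PF j) (h5 : PF x) (h6 : PF y) :
    PF fun a => cmpM (L a) (P a) (u a) (v a) (j a) (x a) (y a) := by unfold cmpM; fun_prop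
@[fun_prop] theorem pf_cB {P : α → Pts} {L u v : α → ℕ} (h0 : PF L) (h1 : PF P)
    (h2 : PF u) (h3 : PF v) : PF fun a => cB (L a) (P a) (u a) (v a) := by unfold cB; fun_prop
@[fun_prop] theorem pf_sA {k : α → ℕ} (h0 : PF k) : PF fun a => sA (k a) := by
  unfold sA; fun_prop

end

theorem sA_spec (k : ℕ) : 64 * sA k ^ 3 ≤ k ∧ k < 64 * (sA k + 1) ^ 3 := by
  have ex : ∃ s, k < 64 * (s + 1) ^ 3 := ⟨k, by nlinarith [Nat.le_self_pow three_ne_zero (k + 1)]⟩
  have h1 := Nat.find_spec ex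
  have h2 : 64 * Nat.find ex ^ 3 ≤ k := by
    rcases e : Nat.find ex with _ | s
    · simp
    · exact not_lt.1 (Nat.find_min ex (by omega))
  have : sA k = Nat.find ex := by
    unfold sA
    rw [cntB_eq, ← card_range (Nat.find ex)]
    congr 1
    ext j
    simp only [mem_filter, mem_range, Nat.ble_eq]
    constructor
    · rintro ⟨_, h⟩
      by_contra c
      have := Nat.pow_le_pow_left (show Nat.find ex + 1 ≤ j + 1 by omega) 3
      omega
    · intro h
      have a := not_lt.1 (Nat.find_min ex h)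
      have := Nat.le_self_pow three_ne_zero (j + 1)
      exact ⟨by omega, a⟩
  rw [this]
  exact ⟨h2, h1⟩

/-- The encoded matrix of an instance. -/
def mat (I : MInst) : Pts := List.ofFn fun i => List.ofFn fun j =>
  (decide ((I.sq i j).num < 0), ⟨(I.sq i j).num.natAbs⟩, ⟨(I.sq i j).den⟩)

theorem mcode_eq (I : MInst) : I.code = enc ((⟨I.k⟩ : Bin), mat I) := by
  unfold MInst.code mat
  rw [enc_prod, enc_list]
  congr 1
  simp only [List.ofFn_eq_map, encList_map, enc_list]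
  rfl

theorem length_mat (I : MInst) : (mat I).length = I.n := by simp [mat]

theorem co_mat (I : MInst) (i j : Fin I.n) : co (mat I) i j =
    (decide ((I.sq i j).num < 0), ⟨(I.sq i j).num.natAbs⟩, ⟨(I.sq i j).den⟩) := by
  simp [co, mat, List.getD_eq_getElem?_getD]

/-- The distance. -/
noncomputable def ds (I : MInst) (u v : Fin I.n) : ℝ := √(I.sq u v : ℝ)

theorem ds_nonneg (I : MInst) (u v : Fin I.n) : 0 ≤ ds I u v := Real.sqrt_nonneg _
theorem ds_self (I : MInst) (u : Fin I.n) : ds I u u = 0 := by simp [ds, I.self]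
theorem ds_symm (I : MInst) (u v : Fin I.n) : ds I u v = ds I v u := by simp [ds, I.symm u v]
theorem ds_tri (I : MInst) (u v w : Fin I.n) : ds I u w ≤ ds I u v + ds I v w := I.tri u v w

theorem ds_sq (I : MInst) (u v : Fin I.n) :
    (((I.sq u v).num.natAbs : ℕ) : ℝ) = ds I u v ^ 2 * (I.sq u v).den := by
  have h : (0 : ℝ) ≤ I.sq u v := by exact_mod_cast I.nonneg u v
  have h0 : ((I.sq u v).den : ℝ) ≠ 0 := by exact_mod_cast (I.sq u v).den_nz
  rw [ds, Real.sq_sqrt h, Rat.cast_def, div_mul_cancel₀ _ h0, Nat.cast_natAbs,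
    abs_of_nonneg (Rat.num_nonneg.2 (I.nonneg u v))]

/-- Rounded distances for a scale `lam`. -/
noncomputable def cR (I : MInst) (lam : ℝ) (u v : ℕ) : ℕ :=
  (if h : u < I.n ∧ v < I.n then ⌈lam * ds I ⟨u, h.1⟩ ⟨v, h.2⟩⌉₊ else 0) +
    (if u = v then 0 else 1)

theorem cR_eq (I : MInst) (lam : ℝ) (u v : Fin I.n) :
    cR I lam u v = ⌈lam * ds I u v⌉₊ + (if (u : ℕ) = v then 0 else 1) := by
  simp [cR]

theorem cB_eq (I : MInst) {L : ℕ} {Δ : ℝ} (h1 : ∀ a b, ds I a b ≤ Δ) (h2 : ∃ a b, ds I a b = Δ)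
    (u v : Fin I.n) : cB L (mat I) u v = cR I (L / Δ) u v := by
  rw [cR_eq, cB, cntB_eq, length_mat]
  congr 1
  swap
  · simp only [Bool.cond_eq_ite, beq_iff_eq]
  have key : ∀ (j : ℕ) (a b : Fin I.n), cmpM L (mat I) u v j a b = true ↔
      j * ds I a b < L * ds I u v := by
    intro j a b
    unfold cmpM Bin.lt
    rw [decide_eq_true_eq]
    simp only [Bin.mul, co_mat]
    rw [← Nat.cast_lt (α := ℝ)]
    simp only [Nat.cast_mul]
    have p1 : (0 : ℝ) < (I.sq a b).den := by exact_mod_cast (I.sq a b).den_pos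
    have p2 : (0 : ℝ) < (I.sq u v).den := by exact_mod_cast (I.sq u v).den_pos
    have e := (mul_lt_mul_iff_right₀ (mul_pos p1 p2)).trans (sq_lt_sq₀
      (a := j * ds I a b) (b := L * ds I u v)
      (mul_nonneg (Nat.cast_nonneg _) (ds_nonneg _ _ _))
      (mul_nonneg (Nat.cast_nonneg _) (ds_nonneg _ _ _)))
    rw [ds_sq, ds_sq, ← e]
    constructor <;> intro h <;> linarith
  have d0 := ds_nonneg I u v
  have d1 := h1 u v
  have hy : L / Δ * ds I u v ≤ L := by
    rcases (d0.trans d1).eq_or_lt with h | h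
    · simp [← h]
    rw [div_mul_eq_mul_div, div_le_iff₀ h]
    exact mul_le_mul_of_nonneg_left d1 (Nat.cast_nonneg _)
  have hc := Nat.ceil_le.2 hy
  rw [← card_range ⌈_⌉₊]
  congr 1
  ext j
  simp only [mem_filter, mem_range, Bool.not_eq_true', Bool.eq_false_iff, ne_eq, anyB_iff,
    not_exists, not_and, not_not]
  have e : j < ⌈L / Δ * ds I u v⌉₊ ↔ j * Δ < L * ds I u v := by
    rcases (d0.trans d1).eq_or_lt with h | h
    · have : ds I u v = 0 := by linarith
      simp [← h, this]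
    rw [Nat.lt_ceil, div_mul_eq_mul_div, lt_div_iff₀ h]
  constructor
  · rintro ⟨_, h⟩
    obtain ⟨a, b, hab⟩ := h2
    rw [e, ← hab]
    exact (key j a b).1 (h a a.2 b b.2)
  · intro h
    refine ⟨by omega, fun a ha b hb => (key j ⟨a, ha⟩ ⟨b, hb⟩).2 ?_⟩
    exact lt_of_le_of_lt (mul_le_mul_of_nonneg_left (h1 _ _) (Nat.cast_nonneg _)) (e.1 h)

theorem isMet_cR (I : MInst) {lam : ℝ} (h : 0 ≤ lam) : IsMet I.n (cR I lam) := by
  refine ⟨fun u hu => by simp [cR, hu, ds_self], fun u v hu hv => ?_, fun u v w hu hv hw => ?_,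
    fun u v _ _ huv => by simp [cR, huv]⟩
  · simp only [cR, hu, hv, and_self, dif_pos, ds_symm I ⟨u, hu⟩, eq_comm]
  · simp only [cR, hu, hv, hw, and_self, dif_pos]
    have h1 := mul_le_mul_of_nonneg_left (ds_tri I ⟨u, hu⟩ ⟨v, hv⟩ ⟨w, hw⟩) h
    rw [mul_add] at h1
    have := (Nat.ceil_mono h1).trans (Nat.ceil_add_le _ _)
    split_ifs <;> omega

open Classical in
/-- Twice the cost. -/
noncomputable def cost2 (I : MInst) (G : SimpleGraph (Fin I.n)) : ℝ :=
  ∑ i, ∑ j, if G.Adj i j then ds I i j else 0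

theorem cost2_eq (I : MInst) (G : SimpleGraph (Fin I.n)) : cost2 I G = 2 * I.cost G := by
  classical
  unfold cost2 MInst.cost
  rw [two_mul]
  nth_rewrite 2 [sum_comm]
  simp only [← sum_add_distrib]
  refine sum_congr rfl fun i _ => sum_congr rfl fun j _ => ?_
  rcases lt_trichotomy i j with h | h | h
  · simp [h, h.not_gt, ds]
  · simp [h]
  · simp [h, h.not_gt, G.adj_comm, ds, I.symm i j]

theorem cost2_nonneg (I : MInst) (G : SimpleGraph (Fin I.n)) : 0 ≤ cost2 I G :=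
  sum_nonneg fun _ _ => sum_nonneg fun _ _ => by split_ifs <;> simp [ds_nonneg]

theorem ds_le_cost2 (I : MInst) {G : SimpleGraph (Fin I.n)} (h : G.Preconnected)
    (a b : Fin I.n) : ds I a b ≤ cost2 I G := by
  classical
  obtain ⟨p⟩ := h a b
  have h1 : ∀ {a b : Fin I.n} (p : G.Walk a b), ds I a b ≤
      (p.darts.map fun e => ds I e.fst e.snd).sum := by
    intro a b p
    induction p with
    | nil => simp [ds_self]
    | cons _ p ih =>
      simp only [SimpleGraph.Walk.darts_cons, List.map_cons, List.sum_cons]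
      exact (ds_tri _ _ _ _).trans (add_le_add_right ih _)
  refine (h1 p.bypass).trans ?_
  rw [← List.sum_toFinset _ (SimpleGraph.Walk.darts_nodup_of_support_nodup
    p.bypass_isPath.support_nodup)]
  unfold cost2
  rw [← sum_product', ← sum_filter, ← sum_image (s := p.bypass.darts.toFinset)
    (g := fun e : G.Dart => e.toProd) (f := fun x => ds I x.1 x.2)
    fun x _ y _ e => SimpleGraph.Dart.ext _ _ e]
  refine sum_le_sum_of_subset_of_nonneg (fun x hx => ?_) fun _ _ _ => ds_nonneg _ _ _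
  obtain ⟨e, _, rfl⟩ := mem_image.1 hx
  exact mem_filter.2 ⟨by simp, e.adj⟩

theorem costN_ge (I : MInst) (lam : ℝ) (G : SimpleGraph (Fin I.n)) :
    lam * cost2 I G ≤ costN I.n (cR I lam) G := by
  classical
  unfold cost2 costN
  push_cast
  simp only [mul_sum]
  refine sum_le_sum fun i _ => sum_le_sum fun j _ => ?_
  by_cases c : G.Adj i j
  · rw [if_pos c, if_pos c, cR_eq, Nat.cast_add]
    exact (Nat.le_ceil _).trans (le_add_of_nonneg_right (Nat.cast_nonneg _))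
  · simp [c]

theorem costN_le (I : MInst) {lam : ℝ} (h : 0 ≤ lam) (G : SimpleGraph (Fin I.n)) :
    (costN I.n (cR I lam) G : ℝ) ≤ lam * cost2 I G + 2 * I.n ^ 2 := by
  classical
  have : (2 * I.n ^ 2 : ℝ) = ∑ _i : Fin I.n, ∑ _j : Fin I.n, (2 : ℝ) := by
    simp; ring
  unfold cost2 costN
  rw [this]
  push_cast
  simp only [mul_sum, ← sum_add_distrib]
  refine sum_le_sum fun i _ => sum_le_sum fun j _ => ?_
  by_cases c : G.Adj i j
  · rw [if_pos c, if_pos c, cR_eq, Nat.cast_add]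
    have h1 := Nat.ceil_lt_add_one (mul_nonneg h (ds_nonneg I i j))
    have h2 : (((if (i : ℕ) = j then 0 else 1 : ℕ) : ℕ) : ℝ) ≤ 1 := by split_ifs <;> simp
    linarith
  · simp [c]

theorem ratio {k s n : ℕ} (h0 : 10 ≤ s) (h1 : 64 * s ^ 3 ≤ k) (h2 : k < 64 * (s + 1) ^ 3)
    (h3 : k < n) : ((s : ℝ) + 162) * (n + 2) ≤ (1 + 720 / (k : ℝ) ^ (1 / 3 : ℝ)) * (s * n) := by
  have a0 : (10 : ℝ) ≤ s := by exact_mod_cast h0
  have a1 : (64 * s ^ 3 : ℝ) ≤ n := by exact_mod_cast h1.trans h3.le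
  have a2 : (k : ℝ) ≤ (4 * (s + 1)) ^ 3 := by
    have : (k : ℝ) ≤ 64 * (s + 1) ^ 3 := by exact_mod_cast h2.le
    linarith [show (4 * ((s : ℝ) + 1)) ^ 3 = 64 * (s + 1) ^ 3 by ring]
  have k0 : (0 : ℝ) < k := by
    have : 0 < k := lt_of_lt_of_le (by positivity) h1
    exact_mod_cast this
  have a3 : (k : ℝ) ^ (1 / 3 : ℝ) ≤ 4 * (s + 1) := by
    refine (Real.rpow_le_rpow k0.le a2 (by norm_num)).trans_eq ?_
    rw [one_div]
    exact_mod_cast Real.pow_rpow_inv_natCast (x := 4 * ((s : ℝ) + 1)) (by positivity) three_ne_zero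
  have a4 : 163 / (s : ℝ) ≤ 720 / (k : ℝ) ^ (1 / 3 : ℝ) := by
    rw [div_le_div_iff₀ (by linarith) (Real.rpow_pos_of_pos k0 _)]
    linarith
  refine le_trans ?_ (mul_le_mul_of_nonneg_right (add_le_add_right a4 1) (by positivity))
  have a5 : (1 + 163 / (s : ℝ)) * (s * n) = (s + 163) * n := by field_simp
  rw [a5]
  nlinarith [mul_le_mul a0 (mul_le_mul a0 a0 (by norm_num) (by linarith)) (by norm_num)
    (by linarith : (0 : ℝ) ≤ s), mul_le_mul a0 a0 (by norm_num) (by linarith : (0 : ℝ) ≤ s)]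

theorem edge : ∃ A : (I : MInst) → SimpleGraph (Fin I.n),
    Nonempty (Turing.TM2ComputableInPolyTime MInst.code (fun s : List Bool => s)
      (fun I : MInst => encGraph (A I))) ∧
    ∀ I : MInst, 64000 ≤ I.k → ∀ G, EdgeConn I.n I.k G → EdgeConn I.n I.k (A I) ∧
      I.cost (A I) ≤ (1 + 720 / (I.k : ℝ) ^ (1 / 3 : ℝ)) * I.cost G := by
  classical
  set run : Bin × Pts → List (List Bool) := fun x => Eg.alg (sA (kA x.1 x.2.length),
    kA x.1 x.2.length, tab2 x.2.length (cB (x.2.length ^ 3) x.2)) with hrun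
  have h1 : PF run := by rw [hrun]; fun_prop
  have h2 : PF fun x : Bin × Pts => tab2 x.2.length fun i j =>
      !(i == j) && (entry (run x) i j || entry (run x) j i) :=
    pf_tab2 (by fun_prop) (PF.and' (by fun_prop) (PF.or'
      (PF.entry (h1.comp (by fun_prop)) (by fun_prop) (by fun_prop))
      (PF.entry (h1.comp (by fun_prop)) (by fun_prop) (by fun_prop))))
  refine ⟨fun I => graphOf I.n (run (⟨I.k⟩, mat I)),
    PF.tm2 h2 _ _ _ (fun I => (⟨I.k⟩, mat I)) mcode_eq fun I => ?_, fun I hR G hG => ?_⟩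
  · rw [encGraph_eq, adjMatrix_eq _ fun i j =>
      !(i == j) && (entry (run (⟨I.k⟩, mat I)) i j || entry (run (⟨I.k⟩, mat I)) j i)]
    · simp only [length_mat]; rfl
    · intro i j
      simp [graphOf, Fin.ext_iff]
  rcases lt_or_ge I.n 2 with hn | hn
  · refine ⟨fun u v huv => absurd (Fin.ext (by omega)) huv, ?_⟩
    have z : ∀ G : SimpleGraph (Fin I.n), I.cost G = 0 := fun G =>
      sum_eq_zero fun i _ => sum_eq_zero fun j _ => if_neg fun h => by
        have := h.1; omega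
    simp [z]
  have hk := edgeConn_lt _ _ _ hG hn
  obtain ⟨⟨a, b⟩, _, hab⟩ := exists_max_image (univ : Finset (Fin I.n × Fin I.n))
    (fun x => ds I x.1 x.2) ⟨(⟨0, by omega⟩, ⟨0, by omega⟩), mem_univ _⟩
  set Δ := ds I a b with hΔ
  have hΔ0 : 0 ≤ Δ := ds_nonneg _ _ _
  set L := I.n ^ 3 with hL
  have hl : 0 ≤ (L : ℝ) / Δ := div_nonneg (Nat.cast_nonneg _) hΔ0
  obtain ⟨s1, s2⟩ := sA_spec I.k
  obtain ⟨J, hJ⟩ : ∃ J : Eg.In, J = (sA I.k, I.k, tab2 I.n (cR I (L / Δ))) := ⟨_, rfl⟩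
  have e : run (⟨I.k⟩, mat I) = Eg.alg J := by
    simp only [hrun, length_mat, kA_eq hk.le, hJ]
    congr 3
    exact tab2_congr fun i j hi hj => cB_eq I (fun a b => hab (a, b) (mem_univ _))
      ⟨a, b, rfl⟩ ⟨i, hi⟩ ⟨j, hj⟩
  have s0 : 10 ≤ sA I.k := by
    by_contra c
    have := Nat.pow_le_pow_left (show sA I.k + 1 ≤ 10 by omega) 3
    omega
  have e1 : Eg.nn J = I.n := by simp [hJ, Eg.nn]
  have e2 : Eg.cc J = nat2 (tab2 I.n (cR I (L / Δ))) := by rw [hJ]; rfl
  have e3 : J.1 = sA I.k := by rw [hJ]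
  have e4 : J.2.1 = I.k := by rw [hJ]
  have ok : Eg.Ok J := ⟨by rw [e1, e2]; exact (isMet_cR I hl).tab, by omega, by rwa [e3, e4],
    by omega⟩
  obtain ⟨o1, o2, o3⟩ := Eg.alg_spec ok (G := adjMatrix G) (by rw [e1]; exact sym_adj G) (by
    rw [e1, e4, ← (sym_adj G).ecut, graphOf_adj]; exact (edgeConn_iff _ _ _).1 hG)
  rw [e1] at o1 o2 o3
  rw [e2, e3, ← o1.costN, ← (sym_adj G).costN, graphOf_adj] at o3
  rw [e4, ← o1.ecut] at o2
  simp only [e]
  refine ⟨(edgeConn_iff _ _ _).2 o2, ?_⟩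
  generalize graphOf I.n (Eg.alg J) = A at o3
  have g0 := cost2_nonneg I G
  have r := ratio s0 s1 s2 hk
  have r0 : (0 : ℝ) ≤ 1 + 720 / (I.k : ℝ) ^ (1 / 3 : ℝ) := by positivity
  generalize 1 + 720 / (I.k : ℝ) ^ (1 / 3 : ℝ) = ρ at r r0 ⊢
  suffices cost2 I A ≤ ρ * cost2 I G by
    rw [cost2_eq, cost2_eq] at this
    linarith
  rcases hΔ0.eq_or_lt with h | h
  · refine le_trans (le_of_eq (sum_eq_zero fun i _ => sum_eq_zero fun j _ => ?_))
      (mul_nonneg r0 g0)
    have : ds I i j = 0 := ((hab (i, j) (mem_univ _)).trans h.ge).antisymm (ds_nonneg I i j)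
    simp [this]
  have n0 : (0 : ℝ) < I.n := by exact_mod_cast (by omega : 0 < I.n)
  have t0 : (0 : ℝ) < sA I.k := by exact_mod_cast (by omega : 0 < sA I.k)
  have hl' : 0 < (L : ℝ) / Δ := div_pos (by rw [hL]; positivity) h
  have g1 := costN_ge I (L / Δ) A
  have g2 : (sA I.k : ℝ) * costN I.n (cR I (L / Δ)) A ≤
      (sA I.k + 162) * costN I.n (cR I (L / Δ)) G := by exact_mod_cast o3
  have g3 := costN_le I hl G
  have g4 : (I.n : ℝ) ^ 3 ≤ L / Δ * cost2 I G := by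
    rw [div_mul_eq_mul_div, le_div_iff₀ h, hL, Nat.cast_pow]
    refine mul_le_mul_of_nonneg_left (ds_le_cost2 I (fun u v => ?_) a b) (by positivity)
    by_cases c : u = v
    · rw [c]
    · obtain ⟨p, _⟩ := hG u v c
      exact ⟨(p ⟨0, by omega⟩).1⟩
  have g6 : (I.n : ℝ) * costN I.n (cR I (L / Δ)) G ≤ (I.n + 2) * (L / Δ * cost2 I G) := by
    nlinarith [mul_le_mul_of_nonneg_left g3 n0.le]
  have g7 : (sA I.k * I.n : ℝ) * (L / Δ * cost2 I A) ≤
      (sA I.k + 162) * (I.n + 2) * (L / Δ * cost2 I G) := by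
    nlinarith [mul_le_mul_of_nonneg_left g1 (mul_pos t0 n0).le,
      mul_le_mul_of_nonneg_left g2 n0.le,
      mul_le_mul_of_nonneg_left g6 (show (0 : ℝ) ≤ sA I.k + 162 by positivity)]
  have g8 := mul_le_mul_of_nonneg_right r (mul_nonneg hl g0)
  have g9 : (sA I.k * I.n : ℝ) * (L / Δ) * cost2 I A ≤
      (sA I.k * I.n : ℝ) * (L / Δ) * (ρ * cost2 I G) := by
    nlinarith
  exact le_of_mul_le_mul_left g9 (by positivity)

end Pool.Agent.Lib.MP_959bb6_lc_M
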